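import Pool.Agent.R347.LC.Gen
import Pool.Agent.Results.MP_1eadae_ag.DilogarithmMeasure
import Pool.Agent.Results.MP_60829e_nt.DilogarithmOneHalf

/-!
# Dilogarithms over fields generated by Liouville numbers

Let `q_0, q_1, …` be integers `≥ 2`. A real number `x` is *approximable* if for some `h` and every `κ` there
are, for all large `k`, integers `u` and `1 ≤ v ≤ q_k ^ h` with `|x - u / v| ≤ q_k ^ (-κ)`. The approximable
numbers form a field. Every Liouville number `ξ` is approximable for some sequence, so that `ℚ(ξ)` is contained in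
such a field; for `q_k = 2 ^ ((k + 2)!)` the field has transcendence degree the cardinality of the continuum.

**Theorem.** Let `L` be a field of approximable numbers, for example `ℚ(ξ)` for any Liouville number `ξ`. For every
integer `Q` with `|Q| ≥ 2` the periods `1`, `log (1 - 1/Q)`, `Li₂(1/Q)` are linearly independent over `L`.

For `Q = 2` these are `1`, `- log 2` and `π² / 12 - (log 2)² / 2`. The proof replaces the coefficients by rational
numbers with a common denominator and uses the measures in the starting files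
(`Pool/Agent/Results/MP_1eadae_ag/DilogarithmMeasure.lean`, `Pool/Agent/Results/MP_60829e_nt/DilogarithmOneHalf.lean`).
-/

set_option autoImplicit false

namespace Pool.Agent.Results.MP_1eadae_ag.LiouvilleCoefficients

/-- For some `h` and every `κ`, for all large `k`, there are integers `u` and `1 ≤ v ≤ (q k) ^ h` with
`|x - u / v| ≤ (q k) ^ (-κ)`. -/
def Approximable (q : ℕ → ℕ) (x : ℝ) : Prop :=
  ∃ h : ℕ, ∀ κ : ℕ, ∃ k₀ : ℕ, ∀ k ≥ k₀, ∃ (u : ℤ) (v : ℕ), 1 ≤ v ∧ v ≤ q k ^ h ∧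
    |x - (u : ℝ) / v| ≤ (((q k : ℕ) : ℝ) ^ κ)⁻¹

/-- The dilogarithm `Li₂(x) = ∑ x ^ k / k ^ 2`, `k ≥ 1`. -/
noncomputable def dilogarithm (x : ℝ) : ℝ := ∑' k : ℕ, x ^ (k + 1) / ((k : ℝ) + 1) ^ 2

/-- For every integer `Q` with `|Q| ≥ 2` the numbers `1`, `log (1 - 1/Q)`, `Li₂(1/Q)` are linearly independent
over `L`. -/
def Good (L : IntermediateField ℚ ℝ) : Prop :=
  ∀ Q : ℤ, 2 ≤ |Q| →
    LinearIndependent L ![(1 : ℝ), Real.log (1 - 1 / (Q : ℝ)), dilogarithm (1 / (Q : ℝ))]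

/-- The sequence `2 ^ ((k + 2)!)`. -/
def q₀ (k : ℕ) : ℕ := 2 ^ (k + 2).factorial

/-- a change of the form of the measure -/
theorem conv {c H m y : ℝ} {N : ℕ} (hc : 0 < c) (hm0 : 0 < m) (hm : m ≤ H) (h : c / m ^ N ≤ |y|) :
    c ≤ H ^ N * |y| := by
  rw [div_le_iff₀ (by positivity)] at h
  calc c ≤ |y| * m ^ N := h
    _ ≤ |y| * H ^ N := mul_le_mul_of_nonneg_left (pow_le_pow_left₀ hm0.le hm _) (abs_nonneg _)
    _ = H ^ N * |y| := mul_comm _ _

theorem max_pos {b d : ℤ} (h : b ≠ 0 ∨ d ≠ 0) : 0 < max |(b : ℝ)| |(d : ℝ)| := by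
  rcases h with h | h
  · exact lt_of_lt_of_le (abs_pos.2 (by exact_mod_cast h)) (le_max_left _ _)
  · exact lt_of_lt_of_le (abs_pos.2 (by exact_mod_cast h)) (le_max_right _ _)

theorem good_of {q : ℕ → ℕ} (hq : ∀ k, 2 ≤ q k) (L : IntermediateField ℚ ℝ)
    (hL : ∀ x ∈ L, Approximable q x) : Good L := by
  intro Q hQ
  refine Pool.Agent.R347.LC.lin3' hq L hL ?_
  by_cases h2 : Q = 2
  · obtain ⟨c, hc, h⟩ := Pool.Agent.Results.MP_60829e_nt.DilogarithmOneHalf.result.1
    refine ⟨c, 3000, hc, fun a b d H hbd hH hb hd => ?_⟩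
    have h1 := h (-b) d a (by simpa using hbd)
    have h3 : max |((-b : ℤ) : ℝ)| |(d : ℝ)| = max |(b : ℝ)| |(d : ℝ)| := by
      push_cast
      rw [abs_neg]
    rw [h3] at h1
    have h4 := conv hc (max_pos hbd) (max_le hb hd) h1
    have h5 : (1 : ℝ) - 1 / ((2 : ℤ) : ℝ) = 2⁻¹ := by norm_num
    have h6 : (1 : ℝ) / ((2 : ℤ) : ℝ) = 1 / 2 := by norm_num
    rw [h2, h5, h6, Real.log_inv]
    have h7 : (a : ℝ) + b * -Real.log 2 + d * dilogarithm (1 / 2) =
        (a : ℝ) + ((-b : ℤ) : ℝ) * Real.log 2 +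
          d * ∑' k : ℕ, (1 / 2 : ℝ) ^ (k + 1) / ((k : ℝ) + 1) ^ 2 := by
      unfold dilogarithm
      push_cast
      ring
    rw [h7]
    exact h4
  · obtain ⟨c, hc, h⟩ := Pool.Agent.Results.MP_1eadae_ag.DilogarithmMeasure.result Q (by
      rcases le_or_gt 0 Q with h0 | h0
      · rw [abs_of_nonneg h0] at hQ
        omega
      · rw [abs_of_neg h0] at hQ
        omega)
    exact ⟨c, 1000, hc, fun a b d H hbd hH hb hd =>
      conv hc (max_pos hbd) (max_le hb hd) (h b d a hbd)⟩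

/-- **Main result.** -/
theorem result :
    -- the approximable numbers form a field
    (∀ q : ℕ → ℕ, (∀ k, 2 ≤ q k) → ∃ L : IntermediateField ℚ ℝ, ∀ x, x ∈ L ↔ Approximable q x) ∧
    -- the transcendence degree of the field for the explicit sequence
    ((∀ k, 2 ≤ q₀ k) ∧ ∀ L : IntermediateField ℚ ℝ, (∀ x, x ∈ L ↔ Approximable q₀ x) →
      Algebra.trdeg ℚ L = Cardinal.continuum) ∧
    -- dilogarithms over fields of approximable numbers
    (∀ q : ℕ → ℕ, (∀ k, 2 ≤ q k) → ∀ L : IntermediateField ℚ ℝ, (∀ x ∈ L, Approximable q x) →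
      Good L) ∧
    -- in particular over the field `ℚ(ξ)` for a Liouville number `ξ`
    (∀ ξ : ℝ, Liouville ξ → Good (IntermediateField.adjoin ℚ {ξ})) := by
  refine ⟨Pool.Agent.R347.LC.field_ex, ⟨Pool.Agent.R347.LC.two_le_qe,
    Pool.Agent.R347.LC.trdeg_qe⟩, fun q hq L hL => good_of hq L hL, fun ξ hξ => ?_⟩
  obtain ⟨q, hq, h⟩ := Pool.Agent.R347.LC.of_liouville hξ
  exact good_of hq _ h

end Pool.Agent.Results.MP_1eadae_ag.LiouvilleCoefficients
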