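import Pool.Agent.R437.Met.Gen
import Pool.Agent.Results.MP_1eadae_ag.NestedFamilies

/-!
# Products of members of a family `X_t` of products of elliptic curves, at the algebraic points near a given point

Let `α_N < ⋯ < α_0 < γ_0 < ⋯ < γ_N`, and for `j = 0, …, N` let `s_j` be a function which is analytic near
`[α_j, γ_j]`, real and increasing on `[α_j, γ_j]`, with `s_j(α_j) = 0`, `s_j(γ_j) = 1`. For `t` in `(α_0, γ_0)` put
`X_t = E_{s_0(t)} × ⋯ × E_{s_N(t)}`, where `E_λ : y² = x (x - 1) (x - λ)`. If the `s_j` are algebraic functions with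
algebraic coefficients and `t` is algebraic, the field of periods of `X_t` is generated over the algebraic numbers by
`π` and the `3 (N + 1)` numbers `K(s_j(t))`, `E(s_j(t))`, `K(1 - s_j(t))`. Let `F` be a number field in `ℂ` and
`c_0, c_1, …` any complex numbers, for instance `1`, or all monomials in the periods of a fixed variety `Y`. For every
`τ > 0` and all `ξ` in `(α_0, γ_0) ^ n` outside a set of Hausdorff dimension at most `2 [F : ℚ] (n - 1) / τ` the
`n`-tuples `t` of real elements of `F` of height at most `T`, `T` large, with `|ξ_i - t_i| ≤ C T ^ (-τ)` have the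
following property: the `3 (N + 1) n` numbers belonging to `t_1, …, t_n` satisfy no polynomial relation, not even an
approximate one, of degree at most `d` whose coefficients are linear combinations of `c_0, …, c_(g-1)` with
coefficients in `F` of height at most `T ^ A`. For `n = 1` the exceptional set has dimension zero, for every `τ > 0`.
The starting file `NestedFamilies` bounds the number of the exceptional tuples.
-/

set_option autoImplicit false

open NumberField

namespace Pool.Agent.Results.MP_1eadae_ag.NearEveryPoint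

open Pool.Agent.R437.Met

/-- Complete elliptic integral of the first kind, `K(m) = ∫_0^{π/2} (1 - m sin² θ)^(-1/2) dθ`. -/
noncomputable def K (m : ℂ) : ℂ :=
  ∫ θ in (0 : ℝ)..(Real.pi / 2), (1 - m * (Real.sin θ : ℂ) ^ 2) ^ (-(1 / 2) : ℂ)

/-- Complete elliptic integral of the second kind, `E(m) = ∫_0^{π/2} (1 - m sin² θ)^(1/2) dθ`. -/
noncomputable def E (m : ℂ) : ℂ :=
  ∫ θ in (0 : ℝ)..(Real.pi / 2), (1 - m * (Real.sin θ : ℂ) ^ 2) ^ (1 / 2 : ℂ)

/-- The `3 (N + 1) n` numbers `K(s_j(t_i))`, `E(s_j(t_i))`, `K(1 - s_j(t_i))`. -/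
noncomputable def periods {N n : ℕ} (s : Fin (N + 1) → ℂ → ℂ) (t : Fin n → ℂ)
    (x : Fin n × (Fin (N + 1) × Fin 3)) : ℂ :=
  ![K (s x.2.1 (t x.1)), E (s x.2.1 (t x.1)), K (1 - s x.2.1 (t x.1))] x.2.2

/-- `x` is the quotient of two integers of `F` all of whose conjugates have absolute value at most `T`. -/
def HeightLe (F : Type) [Field F] [NumberField F] (T : ℝ) (x : F) : Prop :=
  ∃ a b : 𝓞 F, b ≠ 0 ∧ (∀ φ : F →+* ℂ, ‖φ a‖ ≤ T ∧ ‖φ b‖ ≤ T) ∧ x = a / b

/-- There is a polynomial `P` of degree at most `d` in each of `3 (N + 1) n` variables, with coefficients of the form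
`∑ c_i ι(a_i)`, where the `a_i` are integers of `F` all of whose conjugates have absolute value at most `T ^ A`, such
that the value of `P` at the periods is at most `T ^ (-B)` times the absolute value of some nonzero coefficient of
`P`. -/
def Related {N n g : ℕ} (s : Fin (N + 1) → ℂ → ℂ) (F : Type) [Field F] [NumberField F] (ι : F →+* ℂ)
    (c : Fin g → ℂ) (d : ℕ) (A B T : ℝ) (t : Fin n → F) : Prop :=
  ∃ P : MvPolynomial (Fin n × (Fin (N + 1) × Fin 3)) ℂ, (∀ x, P.degreeOf x ≤ d) ∧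
    (∀ s, ∃ a : Fin g → 𝓞 F, (∀ i (φ : F →+* ℂ), ‖φ (a i)‖ ≤ T ^ A) ∧ P.coeff s = ∑ i, c i * ι (a i)) ∧
    ∃ s₀, P.coeff s₀ ≠ 0 ∧
      ‖MvPolynomial.aeval (periods s fun j => ι (t j)) P‖ ≤ T ^ (-B) * ‖P.coeff s₀‖

/-- **Periods near a given point.** Let `n ≥ 1`, `α_N < ⋯ < α_0 < γ_0 < ⋯ < γ_N`, let `s_j` be analytic near
`[α_j, γ_j]`, real and increasing on `[α_j, γ_j]`, with `s_j(α_j) = 0`, `s_j(γ_j) = 1`, let `F` be a number field with
an embedding `ι` in `ℂ`, `c` a sequence of complex numbers. For every `τ > 0` there is a set `X` of Hausdorff dimension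
at most `2 [F : ℚ] (n - 1) / τ` such that for all `ξ` in `(α_0, γ_0) ^ n` outside `X` and all `g`, `d`, `A` there is
`B` such that for all `C` and all large `T`: for the `n`-tuples `t` of elements of `F` of height at most `T` with
`ι(t_j)` real and `|ξ_j - ι(t_j)| ≤ C T ^ (-τ)` for all `j` the periods satisfy no relation in the sense of `Related`,
with coefficients that are linear combinations of the first `g` of the numbers `c`. -/
theorem result (n N : ℕ) (hn : 1 ≤ n) (s : Fin (N + 1) → ℂ → ℂ) (α γ : Fin (N + 1) → ℝ) (hα : StrictAnti α)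
    (hγ : StrictMono γ) (h0 : α 0 < γ 0)
    (hs : ∀ j, ∀ x ∈ Set.Icc (α j) (γ j),
      AnalyticAt ℂ (s j) (x : ℂ) ∧ (s j x).im = 0 ∧ 0 < (deriv (s j) (x : ℂ)).re)
    (hs0 : ∀ j, s j (α j) = 0) (hs1 : ∀ j, s j (γ j) = 1) (F : Type) [Field F] [NumberField F] (ι : F →+* ℂ)
    (c : ℕ → ℂ) (τ : ℝ) (hτ : 0 < τ) :
    ∃ X : Set (Fin n → ℝ), dimH X ≤ ENNReal.ofReal (2 * (Module.finrank ℚ F : ℝ) * ((n : ℝ) - 1) / τ) ∧
      ∀ ξ : Fin n → ℝ, (∀ j, α 0 < ξ j ∧ ξ j < γ 0) → ξ ∉ X → ∀ (g d : ℕ) (A : ℝ), ∃ B : ℝ, ∀ C : ℝ,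
        ∃ T₁ : ℝ, ∀ T : ℝ, T₁ ≤ T → ∀ t : Fin n → F,
          (∀ j, HeightLe F T (t j) ∧ (ι (t j)).im = 0 ∧ |ξ j - (ι (t j)).re| ≤ C * T ^ (-τ)) →
            ¬ Related s F ι (fun i : Fin g => c i) d A B T t := by
  classical
  have hn' : (1 : ℝ) ≤ n := by exact_mod_cast hn
  have hm : (0 : ℝ) ≤ Module.finrank ℚ F := Nat.cast_nonneg _
  have hSo : IsOpen (Set.pi Set.univ fun _ : Fin n => Set.Ioo (α 0) (γ 0)) :=
    isOpen_set_pi Set.finite_univ fun _ _ => isOpen_Ioo
  obtain ⟨X, hX, h⟩ := Gen.near F (fun (t : Fin n → F) (x : Fin n × (Fin (N + 1) × Fin 3)) =>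
      periods s (fun j => ι (t j)) x) ι c
    (fun (t : Fin n → F) (j : Fin n) => (ι (t j)).re) (fun T t => ∀ j, HeightLe F T (t j) ∧ (ι (t j)).im = 0)
    (Set.pi Set.univ fun _ : Fin n => Set.Ioo (α 0) (γ 0)) hSo
    (2 * (Module.finrank ℚ F : ℝ) * ((n : ℝ) - 1)) τ (mul_nonneg (by linarith) (by linarith)) hτ
    (fun T T' q hT h j => ⟨Hs.IsPt.mono (h j).1 hT, (h j).2⟩)
    (by
      intro K hK hKS g d A ε hε
      obtain ⟨a, b, hab, habS, hmem⟩ := Tup.compact_Icc isOpen_Ioo Set.ordConnected_Ioo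
        ⟨(α 0 + γ 0) / 2, ⟨by linarith, by linarith⟩⟩ hK hKS
      have ha : α 0 < a := (habS ⟨le_rfl, hab.le⟩).1
      have hb : b < γ 0 := (habS ⟨hab.le, le_rfl⟩).2
      obtain ⟨B, C, T₀, h⟩ := NestedFamilies.result N s α γ hα hγ h0 hs hs0 hs1 a b ha hb
        (Module.finrank ℚ F) n g d A ε hε
      obtain ⟨C₁, hC₁, hcnt⟩ := Hs.pt_count F
      obtain ⟨C', hC'⟩ := Gen.pow_le (N := fun T => ({x : F | Hs.IsPt F T x}.ncard : ℝ))
        (C₁ := C₁) (p := 2 * (Module.finrank ℚ F : ℝ)) (fun T => Nat.cast_nonneg _)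
        (fun T hT => by
          have := hcnt T hT
          rw [← Real.rpow_natCast T (2 * Module.finrank ℚ F)] at this
          push_cast at this
          exact this) n hn |C| ε
      refine ⟨B, C', max T₀ 1, fun T hT => ?_⟩
      have hT1 : 1 ≤ T := (le_max_right _ _).trans hT
      have hfin : {x : F | Hs.IsPt F T x ∧ (ι x).im = 0 ∧ a ≤ (ι x).re ∧ (ι x).re ≤ b}.Finite :=
        (Hs.pt_finite F T).subset fun x hx => hx.1
      have h3 := h F le_rfl ι (fun i : Fin g => c i) T ((le_max_left _ _).trans hT) hfin.toFinset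
        (fun x hx => by
          have hx' := (Set.Finite.mem_toFinset hfin).1 hx
          exact ⟨hx'.2.1, hx'.2.2.1, hx'.2.2.2, hx'.1⟩)
      rw [← Set.ncard_eq_toFinset_card _ hfin] at h3
      have hle : ({x : F | Hs.IsPt F T x ∧ (ι x).im = 0 ∧ a ≤ (ι x).re ∧ (ι x).re ≤ b}.ncard : ℝ) ≤
          ({x : F | Hs.IsPt F T x}.ncard : ℝ) := by
        have hsub0 : {x : F | Hs.IsPt F T x ∧ (ι x).im = 0 ∧ a ≤ (ι x).re ∧ (ι x).re ≤ b} ⊆
          {x : F | Hs.IsPt F T x} := fun x hx => hx.1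
        exact_mod_cast Set.ncard_le_ncard hsub0 (Hs.pt_finite F T)
      have h3' : ((NestedFamilies.Exceptional n d s F ι (fun i : Fin g => c i) hfin.toFinset A B T).ncard : ℝ) ≤
          |C| * T ^ ε * ({x : F | Hs.IsPt F T x}.ncard : ℝ) ^ (n - 1) := by
        refine h3.trans (mul_le_mul (mul_le_mul_of_nonneg_right (le_abs_self C) (by positivity))
          (pow_le_pow_left₀ (Nat.cast_nonneg _) hle _) (by positivity) (by positivity))
      have hfin2 : (NestedFamilies.Exceptional n d s F ι (fun i : Fin g => c i) hfin.toFinset A B T).Finite := by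
        refine (Finset.finite_toSet (Fintype.piFinset fun _ : Fin n => hfin.toFinset)).subset ?_
        intro t ht
        rw [Finset.mem_coe, Fintype.mem_piFinset]
        exact ht.1
      have hsub : {x : Fin n → F | (fun j => (ι (x j)).re) ∈ K ∧ (∀ j, HeightLe F T (x j) ∧ (ι (x j)).im = 0) ∧
          Gen.Rel F (fun (t : Fin n → F) (x : Fin n × (Fin (N + 1) × Fin 3)) => periods s (fun j => ι (t j)) x) ι
            (fun i : Fin g => c i) d A B T x} ⊆
          NestedFamilies.Exceptional n d s F ι (fun i : Fin g => c i) hfin.toFinset A B T := by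
        rintro q ⟨h4, h5, h6⟩
        refine ⟨fun j => (Set.Finite.mem_toFinset hfin).2 ⟨(h5 j).1, (h5 j).2, (hmem _ h4 j).1,
          (hmem _ h4 j).2⟩, h6⟩
      refine ⟨hfin2.subset hsub, le_trans ?_ (h3'.trans (hC' T hT1))⟩
      exact_mod_cast Set.ncard_le_ncard hsub hfin2)
  refine ⟨X, hX, fun ξ hξ hξE g d A => ?_⟩
  obtain ⟨B, hB⟩ := h ξ (fun j _ => hξ j) hξE g d A
  refine ⟨B, fun C => ?_⟩
  obtain ⟨T₁, hT⟩ := hB |C|
  refine ⟨max T₁ 0, fun T hT' t ht => hT T ((le_max_left _ _).trans hT') t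
    (fun j => ⟨(ht j).1, (ht j).2.1⟩) ?_⟩
  have hT0 : 0 ≤ T := (le_max_right _ _).trans hT'
  rw [dist_pi_le_iff (by positivity)]
  intro j
  rw [Real.dist_eq]
  exact (ht j).2.2.trans (mul_le_mul_of_nonneg_right (le_abs_self C) (by positivity))

end Pool.Agent.Results.MP_1eadae_ag.NearEveryPoint
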