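import Pool.Agent.R349.Short2
import Pool.Agent.R349.Polylog

/-!
# Polylogarithms of algebraic numbers: a bounded number of exceptions in small discs

The numbers `log x`, `Li_1(x) = -log(1 - x)`, `Li_2(x)`, …, `Li_w(x)` are periods for algebraic `x ≠ 0` in the unit disc,
and no algebraic relation between them follows from the rules for integrals for general `x`; so Kontsevich's conjecture
predicts that there are no algebraic relations between these numbers and `π` for general algebraic `x`, and for general
tuples `x_1, …, x_n`. The starting results for this problem treat integers `1 / x` in windows, or rational numbers `x` with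
denominators at most `T` with at most `C T ^ (β + 2 n - 2)`, `β` close to `2`, exceptions; they say nothing about the
algebraic numbers `x` of height at most `T` in a disc of radius `T ^ (-δ)`.

We show that **at most `C` algebraic numbers `x` of height at most `T` of a number field `F` in a disc of radius
`T ^ (-δ)`** are exceptions to the following: `log x, Li_1(x), …, Li_w(x)` satisfy no polynomial relation, not even an
approximate one, of degree at most `d` and height at most `T ^ A` whose coefficients are combinations of given complex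
numbers `ξ_1, …, ξ_g`, for instance of other periods; and together with `π` no relation over `F`. Here `A` and `δ > 0` are
arbitrary, and `C` does not depend on `T` and on the field `F` of degree at most `m`. More generally, let `X_1, …, X_n` be
finite sets of elements of `F` of height at most `T`, with images in a compact subset `K` of the unit disc without
`(-1, 0]`, each of them of diameter at most `T ^ (-δ)`; for instance all elements of `X_j` can be fractions with one fixed
denominator `T`. All but `C ∑_j ∏_(i ≠ j) |X_i|` of the tuples of `X_1 × … × X_n` are good, that is, the `(w + 1) n` numbers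
have the property above, and there is a good one if all `|X_j| > C`.

The proof uses the algebraic independence of the polylogarithms (starting files, `Pool.Agent.TH818.AP.liInd_of`), and a
determinant method for small discs (`Pool.Agent.R349.Gen.shortG`).
-/

set_option autoImplicit false

open NumberField

namespace Pool.Agent.Results.MP_1eadae_ag.SmallDiscs

/-- The polynomials of degree at most `d` in each variable, all of whose coefficients are of the form `∑ ξ_i ι(c_i)`, where
the `c_i` are integers of the number field `F` all of whose conjugates have absolute value at most `H`. -/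
def Admissible {σ : Type} {g : ℕ} (F : Type) [Field F] [NumberField F] (ι : F →+* ℂ) (ξ : Fin g → ℂ) (d : ℕ) (H : ℝ)
    (P : MvPolynomial σ ℂ) : Prop :=
  (∀ y, P.degreeOf y ≤ d) ∧
    ∀ s, ∃ c : Fin g → 𝓞 F, (∀ i (φ : F →+* ℂ), ‖φ (c i)‖ ≤ H) ∧ P.coeff s = ∑ i, ξ i * ι (c i)

/-- The complex numbers `v` are good: every admissible polynomial takes at them a value which is at least `δ` times each of
its coefficients, and `π` and these numbers satisfy no relation `Q = 0` with a nonzero polynomial `Q` of degree at most `d`
in each variable whose coefficients are integers of `F` with conjugates of absolute value at most `H`. -/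
def Good {σ : Type} {g : ℕ} (F : Type) [Field F] [NumberField F] (ι : F →+* ℂ) (ξ : Fin g → ℂ) (d : ℕ)
    (H δ : ℝ) (v : σ → ℂ) : Prop :=
  (∀ P : MvPolynomial σ ℂ, Admissible F ι ξ d H P → ∀ s, δ * ‖P.coeff s‖ ≤ ‖MvPolynomial.aeval v P‖) ∧
  ∀ Q : MvPolynomial (Option σ) (𝓞 F), Q ≠ 0 → (∀ x, Q.degreeOf x ≤ d) →
    (∀ s (φ : F →+* ℂ), ‖φ ((Q.coeff s : 𝓞 F) : F)‖ ≤ H) →
    MvPolynomial.eval₂ (ι.comp (algebraMap (𝓞 F) F)) (fun o => o.elim (Real.pi : ℂ) v) Q ≠ 0

/-- The element `x` of `F` is a quotient of integers all of whose conjugates have absolute value at most `T`. -/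
def HeightLe (F : Type) [Field F] [NumberField F] (T : ℝ) (x : F) : Prop :=
  ∃ a b : 𝓞 F, b ≠ 0 ∧ (∀ φ : F →+* ℂ, ‖φ a‖ ≤ T ∧ ‖φ b‖ ≤ T) ∧ x = a / b

/-- `f_0(z) = log z` and for `k ≥ 1` the polylogarithm `f_k(z) = Li_k(z) = ∑_(m ≥ 1) z^m / m^k`. -/
noncomputable def f (k : ℕ) (z : ℂ) : ℂ := if k = 0 then Complex.log z else ∑' m : ℕ, z ^ (m + 1) / ((m : ℂ) + 1) ^ k

/-- Let `K` be a compact subset of the unit disc without `(-1, 0]`. For all `w`, `n`, `m`, `g`, `d`, `A` and `δ > 0` there
are `B`, `C`, `T₀` with the property stated above. -/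
theorem result (w n : ℕ) (K : Set ℂ) (hK : IsCompact K) (hK1 : K ⊆ Metric.ball 0 1) (hK2 : K ⊆ Complex.slitPlane)
    (m g d : ℕ) (A δ : ℝ) (hδ : 0 < δ) :
    ∃ (B : ℝ) (C : ℕ) (T₀ : ℝ), ∀ (F : Type) [Field F] [NumberField F], Module.finrank ℚ F ≤ m →
      ∀ (ι : F →+* ℂ) (ξ : Fin g → ℂ) (T : ℝ), T₀ ≤ T → ∀ X : Fin n → Finset F,
        (∀ j, ∀ x ∈ X j, ι x ∈ K ∧ HeightLe F T x) → (∀ j, ∀ x ∈ X j, ∀ y ∈ X j, ‖ι x - ι y‖ ≤ T ^ (-δ)) →
        (({x : Fin n → F | (∀ j, x j ∈ X j) ∧ ¬ Good F ι ξ d (T ^ A) (T ^ (-B))
          (fun k : Fin n × Fin (w + 1) => f k.2 (ι (x k.1)))}.ncard : ℝ) ≤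
          C * ∑ j, ∏ i ∈ Finset.univ.erase j, ((X i).card : ℝ)) ∧
        ((∀ j, C < (X j).card) → ∃ x : Fin n → F, (∀ j, x j ∈ X j) ∧ Good F ι ξ d (T ^ A) (T ^ (-B))
          (fun k : Fin n × Fin (w + 1) => f k.2 (ι (x k.1)))) := by
  have hf : f = Pool.Agent.R349.Semi.plC := by
    funext k z
    rfl
  rw [hf]
  exact Pool.Agent.R349.Gen.shortG m n g d (fun (_ : Fin n) (k : Fin (w + 1)) => Pool.Agent.R349.Semi.plC (k : ℕ)) K hK
    (fun _ k t ht => Pool.Agent.R349.Semi.plC_an k t ⟨hK1 ht, hK2 ht⟩)
    (fun _ t ht => Pool.Agent.R349.Semi.plC_locInd w t ⟨hK1 ht, hK2 ht⟩) A δ hδ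

end Pool.Agent.Results.MP_1eadae_ag.SmallDiscs
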